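import Pool.Agent.Helper94.Box.Interval

/-!
# Points of the modular hyperbola in boxes
-/

set_option autoImplicit false

namespace Pool.Agent.Helper94.Box

open Finset ZMod

variable {p : ℕ} [hp : Fact p.Prime]

theorem K_zero : K (0 : ZMod p) 0 = (p : ℂ) - 1 := by
  unfold K
  have hcardU : Fintype.card (ZMod p)ˣ = p - 1 := ZMod.card_units p
  simp only [zero_mul, add_zero, AddChar.map_zero_eq_one, Finset.sum_const, Finset.card_univ,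
    hcardU, nsmul_eq_mul, mul_one]
  rw [Nat.cast_sub hp.out.one_lt.le]
  simp

theorem indicator (c : (ZMod p)ˣ) (n m : ZMod p) :
    ∑ h : ZMod p, ∑ k : ZMod p, (stdAddChar (-(h * n)) : ℂ) * (stdAddChar (-(k * m)) : ℂ) *
      K h (k * ((c⁻¹ : (ZMod p)ˣ) : ZMod p)) =
    if (c : ZMod p) * n * m = 1 then (p : ℂ) ^ 2 else 0 := by
  classical
  have h1 : ∀ h k : ZMod p, (stdAddChar (-(h * n)) : ℂ) * (stdAddChar (-(k * m)) : ℂ) *
      K h (k * ((c⁻¹ : (ZMod p)ˣ) : ZMod p)) =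
      ∑ x : (ZMod p)ˣ, (stdAddChar (h * ((x : ZMod p) - n)) : ℂ) *
        (stdAddChar (k * (((c⁻¹ : (ZMod p)ˣ) : ZMod p) * ((x⁻¹ : (ZMod p)ˣ) : ZMod p) - m)) : ℂ) := by
    intro h k
    unfold K
    rw [Finset.mul_sum]
    refine Finset.sum_congr rfl fun x _ => ?_
    rw [← char_mul, ← char_mul, ← char_mul]
    congr 1
    ring
  simp_rw [h1]
  have h2 : ∑ h : ZMod p, ∑ k : ZMod p, ∑ x : (ZMod p)ˣ,
      (stdAddChar (h * ((x : ZMod p) - n)) : ℂ) *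
        (stdAddChar (k * (((c⁻¹ : (ZMod p)ˣ) : ZMod p) * ((x⁻¹ : (ZMod p)ˣ) : ZMod p) - m)) : ℂ) =
      ∑ x : (ZMod p)ˣ, (∑ h : ZMod p, (stdAddChar (h * ((x : ZMod p) - n)) : ℂ)) *
        (∑ k : ZMod p, (stdAddChar (k * (((c⁻¹ : (ZMod p)ˣ) : ZMod p) *
          ((x⁻¹ : (ZMod p)ˣ) : ZMod p) - m)) : ℂ)) := by
    simp_rw [Finset.sum_mul_sum]
    rw [Finset.sum_comm (s := (univ : Finset (ZMod p)ˣ))]
    refine Finset.sum_congr rfl fun a _ => ?_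
    rw [Finset.sum_comm]
  rw [h2]
  simp_rw [sum_char, sub_eq_zero]
  by_cases hcnm : (c : ZMod p) * n * m = 1
  · rw [if_pos hcnm]
    have hn : n ≠ 0 := by
      rintro rfl
      simp at hcnm
    rw [Finset.sum_eq_single (Units.mk0 n hn)]
    · rw [if_pos (by simp), if_pos, sq]
      simp only [Units.val_inv_eq_inv_val, Units.val_mk0]
      have hc : (c : ZMod p) ≠ 0 := c.ne_zero
      field_simp
      linear_combination -hcnm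
    · intro x _ hx
      rw [if_neg, zero_mul]
      intro h
      exact hx (Units.ext (by simpa using h))
    · intro h
      exact absurd (Finset.mem_univ _) h
  · rw [if_neg hcnm]
    refine Finset.sum_eq_zero fun x _ => ?_
    by_cases h3 : (x : ZMod p) = n
    · rw [if_neg (c := ((c⁻¹ : (ZMod p)ˣ) : ZMod p) * ((x⁻¹ : (ZMod p)ˣ) : ZMod p) = m), mul_zero]
      intro h4
      apply hcnm
      have hc := Units.mul_inv c
      have hx := Units.mul_inv x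
      rw [← h3, ← h4]
      linear_combination ((x : ZMod p) * ((x⁻¹ : (ZMod p)ˣ) : ZMod p)) * hc + hx
    · rw [if_neg h3, zero_mul]

/-- The number of solutions in the box, as a Fourier sum. -/
theorem count_eq (c : (ZMod p)ˣ) (a₁ b₁ a₂ b₂ : ℕ) :
    ∑ h : ZMod p, ∑ k : ZMod p, F a₁ b₁ h * F a₂ b₂ k * K h (k * ((c⁻¹ : (ZMod p)ˣ) : ZMod p)) =
    (p : ℂ) ^ 2 * (((Ioc a₁ b₁ ×ˢ Ioc a₂ b₂).filter
      (fun t => (c : ZMod p) * (t.1 : ZMod p) * (t.2 : ZMod p) = 1)).card : ℂ) := by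
  classical
  have h1 : ∀ h k : ZMod p, F a₁ b₁ h * F a₂ b₂ k * K h (k * ((c⁻¹ : (ZMod p)ˣ) : ZMod p)) =
      ∑ t ∈ Ioc a₁ b₁ ×ˢ Ioc a₂ b₂, (stdAddChar (-(h * (t.1 : ZMod p))) : ℂ) *
        (stdAddChar (-(k * (t.2 : ZMod p))) : ℂ) * K h (k * ((c⁻¹ : (ZMod p)ˣ) : ZMod p)) := by
    intro h k
    unfold F
    rw [Finset.sum_mul_sum, ← Finset.sum_product', Finset.sum_mul]
  simp_rw [h1]
  rw [show (∑ h : ZMod p, ∑ k : ZMod p, ∑ t ∈ Ioc a₁ b₁ ×ˢ Ioc a₂ b₂,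
      (stdAddChar (-(h * (t.1 : ZMod p))) : ℂ) *
        (stdAddChar (-(k * (t.2 : ZMod p))) : ℂ) * K h (k * ((c⁻¹ : (ZMod p)ˣ) : ZMod p))) =
      ∑ t ∈ Ioc a₁ b₁ ×ˢ Ioc a₂ b₂, ∑ h : ZMod p, ∑ k : ZMod p,
      (stdAddChar (-(h * (t.1 : ZMod p))) : ℂ) *
        (stdAddChar (-(k * (t.2 : ZMod p))) : ℂ) * K h (k * ((c⁻¹ : (ZMod p)ˣ) : ZMod p)) from ?_]
  · simp_rw [indicator]
    rw [Finset.card_filter]
    push_cast
    rw [Finset.mul_sum]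
    refine Finset.sum_congr rfl fun t _ => ?_
    split_ifs <;> simp
  · rw [Finset.sum_comm (s := Ioc a₁ b₁ ×ˢ Ioc a₂ b₂)]
    refine Finset.sum_congr rfl fun a _ => ?_
    rw [Finset.sum_comm]

theorem main_bound (c : (ZMod p)ˣ) {a₁ b₁ a₂ b₂ : ℕ} (h₁ : a₁ ≤ b₁) (hb₁ : b₁ < p)
    (h₂ : a₂ ≤ b₂) (hb₂ : b₂ < p) :
    |(((Ioc a₁ b₁ ×ˢ Ioc a₂ b₂).filter
      (fun t => (c : ZMod p) * (t.1 : ZMod p) * (t.2 : ZMod p) = 1)).card : ℝ) -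
      ((b₁ : ℝ) - a₁) * ((b₂ : ℝ) - a₂) / p| ≤ 9 * (p : ℝ) ^ (3 / 4 : ℝ) * (1 + Real.log p) ^ 2 := by
  classical
  have hp1 : (1 : ℝ) < p := by exact_mod_cast hp.out.one_lt
  have hp0 : (0 : ℝ) < p := by linarith
  set N : ℕ := ((Ioc a₁ b₁ ×ˢ Ioc a₂ b₂).filter
      (fun t => (c : ZMod p) * (t.1 : ZMod p) * (t.2 : ZMod p) = 1)).card with hN
  set B : ℝ := 2 * (p : ℝ) ^ (3 / 4 : ℝ) with hB
  have hB0 : 0 ≤ B := by positivity
  set L : ℝ := 1 + Real.log p with hL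
  have hL1 : 1 ≤ L := by
    have := Real.log_nonneg hp1.le
    linarith
  have hcount := count_eq c a₁ b₁ a₂ b₂
  rw [← hN] at hcount
  rw [← Finset.sum_product'] at hcount
  rw [← Finset.add_sum_erase _ _ (show ((0 : ZMod p), (0 : ZMod p)) ∈
    (univ : Finset (ZMod p)) ×ˢ (univ : Finset (ZMod p)) by simp)] at hcount
  simp only [F_zero, zero_mul, K_zero] at hcount
  -- the error term
  set E : ℂ := ∑ t ∈ ((univ : Finset (ZMod p)) ×ˢ (univ : Finset (ZMod p))).erase (0, 0),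
    F a₁ b₁ t.1 * F a₂ b₂ t.2 * K t.1 (t.2 * ((c⁻¹ : (ZMod p)ˣ) : ZMod p)) with hE
  have hEle : ‖E‖ ≤ B * (2 * (p : ℝ) * L) ^ 2 := by
    have h3 : ∀ t ∈ ((univ : Finset (ZMod p)) ×ˢ (univ : Finset (ZMod p))).erase (0, 0),
        ‖F a₁ b₁ t.1 * F a₂ b₂ t.2 * K t.1 (t.2 * ((c⁻¹ : (ZMod p)ˣ) : ZMod p))‖ ≤
        ‖F a₁ b₁ t.1‖ * ‖F a₂ b₂ t.2‖ * B := by
      intro t ht
      rw [norm_mul, norm_mul]
      refine mul_le_mul_of_nonneg_left (norm_K_le ?_) (by positivity)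
      rintro ⟨h4, h5⟩
      have h6 : t.2 = 0 := by
        rcases mul_eq_zero.1 h5 with h | h
        · exact h
        · exact absurd h (Units.ne_zero _)
      exact (Finset.mem_erase.1 ht).1 (Prod.ext h4 h6)
    calc ‖E‖ ≤ ∑ t ∈ ((univ : Finset (ZMod p)) ×ˢ (univ : Finset (ZMod p))).erase (0, 0),
          ‖F a₁ b₁ t.1‖ * ‖F a₂ b₂ t.2‖ * B := (norm_sum_le _ _).trans (Finset.sum_le_sum h3)
      _ ≤ ∑ t ∈ (univ : Finset (ZMod p)) ×ˢ (univ : Finset (ZMod p)),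
          ‖F a₁ b₁ t.1‖ * ‖F a₂ b₂ t.2‖ * B :=
          Finset.sum_le_sum_of_subset_of_nonneg (Finset.erase_subset _ _)
            (fun t _ _ => by positivity)
      _ = B * ((∑ h : ZMod p, ‖F a₁ b₁ h‖) * (∑ k : ZMod p, ‖F a₂ b₂ k‖)) := by
          rw [Finset.sum_mul_sum, ← Finset.sum_product', Finset.mul_sum]
          refine Finset.sum_congr rfl fun t _ => by ring
      _ ≤ B * ((2 * (p : ℝ) * L) * (2 * (p : ℝ) * L)) := by
          refine mul_le_mul_of_nonneg_left ?_ hB0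
          exact mul_le_mul (sum_norm_F_le h₁ hb₁) (sum_norm_F_le h₂ hb₂)
            (Finset.sum_nonneg fun _ _ => norm_nonneg _) (by positivity)
      _ = B * (2 * (p : ℝ) * L) ^ 2 := by ring
  set A : ℝ := ((b₁ : ℝ) - a₁) * ((b₂ : ℝ) - a₂) with hA
  have hE2 : E = (((p : ℝ) ^ 2 * N - A * ((p : ℝ) - 1) : ℝ) : ℂ) := by
    have h5 : (((b₁ - a₁ : ℕ) : ℂ)) = (b₁ : ℂ) - a₁ := by rw [Nat.cast_sub h₁]
    have h6 : (((b₂ - a₂ : ℕ) : ℂ)) = (b₂ : ℂ) - a₂ := by rw [Nat.cast_sub h₂]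
    rw [h5, h6] at hcount
    rw [hA]
    push_cast
    linear_combination hcount
  rw [hE2, Complex.norm_real, Real.norm_eq_abs] at hEle
  have ha1 : (a₁ : ℝ) ≤ b₁ := by exact_mod_cast h₁
  have ha2 : (a₂ : ℝ) ≤ b₂ := by exact_mod_cast h₂
  have hb1 : (b₁ : ℝ) < p := by exact_mod_cast hb₁
  have hb2 : (b₂ : ℝ) < p := by exact_mod_cast hb₂
  have ha1' : (0 : ℝ) ≤ a₁ := by positivity
  have ha2' : (0 : ℝ) ≤ a₂ := by positivity
  have hA0 : 0 ≤ A := mul_nonneg (by linarith) (by linarith)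
  have hA1 : A ≤ (p : ℝ) ^ 2 := by
    rw [sq]
    exact mul_le_mul (by linarith) (by linarith) (by linarith) hp0.le
  have hfin : (p : ℝ) ^ 2 * ((N : ℝ) - A / p) = ((p : ℝ) ^ 2 * N - A * ((p : ℝ) - 1)) - A := by
    field_simp
    ring
  have hp34 : (1 : ℝ) ≤ (p : ℝ) ^ (3 / 4 : ℝ) := Real.one_le_rpow hp1.le (by norm_num)
  have h7 : (p : ℝ) ^ 2 * |(N : ℝ) - A / p| ≤ (p : ℝ) ^ 2 * (9 * (p : ℝ) ^ (3 / 4 : ℝ) * L ^ 2) := by
    calc (p : ℝ) ^ 2 * |(N : ℝ) - A / p| = |(p : ℝ) ^ 2 * ((N : ℝ) - A / p)| := by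
          rw [abs_mul, abs_of_pos (by positivity : (0 : ℝ) < (p : ℝ) ^ 2)]
      _ = |((p : ℝ) ^ 2 * N - A * ((p : ℝ) - 1)) - A| := by rw [hfin]
      _ ≤ |(p : ℝ) ^ 2 * N - A * ((p : ℝ) - 1)| + |A| := abs_sub _ _
      _ ≤ B * (2 * (p : ℝ) * L) ^ 2 + (p : ℝ) ^ 2 := by
          rw [abs_of_nonneg hA0]
          exact add_le_add hEle hA1
      _ = (p : ℝ) ^ 2 * (8 * (p : ℝ) ^ (3 / 4 : ℝ) * L ^ 2) + (p : ℝ) ^ 2 * 1 := by
          rw [hB]; ring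
      _ ≤ (p : ℝ) ^ 2 * (8 * (p : ℝ) ^ (3 / 4 : ℝ) * L ^ 2) +
          (p : ℝ) ^ 2 * ((p : ℝ) ^ (3 / 4 : ℝ) * L ^ 2) := by
          have h8 : 1 ≤ L ^ 2 := one_le_pow₀ hL1
          have h9 : 1 ≤ (p : ℝ) ^ (3 / 4 : ℝ) * L ^ 2 := by nlinarith
          have h10 : (0 : ℝ) ≤ (p : ℝ) ^ 2 := by positivity
          nlinarith
      _ = _ := by ring
  exact le_of_mul_le_mul_left h7 (by positivity)

end Pool.Agent.Helper94.Box

namespace Pool.Agent.Helper94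

open Box

/-- Equidistribution of the modular hyperbola in boxes, with exponent `3/4`. -/
theorem box_count : ∃ C : ℝ, 0 < C ∧ ∀ p : ℕ, p.Prime → ∀ c : ℕ, ¬ p ∣ c →
    ∀ x₁ x₂ y₁ y₂ : ℕ, x₁ ≤ x₂ → x₂ < p → y₁ ≤ y₂ → y₂ < p →
    |(((Finset.Ioc x₁ x₂ ×ˢ Finset.Ioc y₁ y₂).filter
      (fun t => c * t.1 * t.2 ≡ 1 [MOD p])).card : ℝ) -
      ((x₂:ℝ) - x₁) * ((y₂:ℝ) - y₁) / p| ≤ C * (p:ℝ)^(3/4:ℝ) * (1 + Real.log p)^2 := by
  refine ⟨9, by norm_num, ?_⟩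
  intro p hp c hc x₁ x₂ y₁ y₂ hx hxp hy hyp
  have : Fact p.Prime := ⟨hp⟩
  have hc0 : (c : ZMod p) ≠ 0 := by
    rwa [Ne, ZMod.natCast_eq_zero_iff]
  have h := main_bound (Units.mk0 (c : ZMod p) hc0) hx hxp hy hyp
  have h2 : (Finset.Ioc x₁ x₂ ×ˢ Finset.Ioc y₁ y₂).filter
      (fun t => c * t.1 * t.2 ≡ 1 [MOD p]) = (Finset.Ioc x₁ x₂ ×ˢ Finset.Ioc y₁ y₂).filter
      (fun t => ((Units.mk0 (c : ZMod p) hc0 : (ZMod p)ˣ) : ZMod p) * (t.1 : ZMod p) *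
        (t.2 : ZMod p) = 1) := by
    refine Finset.filter_congr fun t _ => ?_
    rw [← ZMod.natCast_eq_natCast_iff]
    push_cast
    simp
  rw [h2]
  exact h

end Pool.Agent.Helper94
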