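import Pool.Agent.Helper94.Box.Kloosterman

/-!
# Fourier coefficients of intervals modulo `p`
-/

set_option autoImplicit false

namespace Pool.Agent.Helper94.Box

open Finset ZMod

variable {p : ℕ} [hp : Fact p.Prime]

/-- The (unnormalised) Fourier coefficient of the interval `(a, b]`. -/
noncomputable def F (a b : ℕ) (h : ZMod p) : ℂ :=
  ∑ n ∈ Ioc a b, (stdAddChar (-(h * (n : ZMod p))) : ℂ)

theorem F_zero (a b : ℕ) : F (p := p) a b 0 = ((b - a : ℕ) : ℂ) := by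
  simp [F]

theorem char_pow (h : ZMod p) (n : ℕ) :
    (stdAddChar (-(h * (n : ZMod p))) : ℂ) = (stdAddChar (-h) : ℂ) ^ n := by
  rw [← AddChar.map_nsmul_eq_pow]
  congr 1
  simp [mul_comm]

theorem norm_sub_one_ge {k : ℕ} (hk0 : 0 < k) (hkp : k < p) :
    4 * (min k (p - k) : ℕ) / (p : ℝ) ≤ ‖(stdAddChar (-(k : ZMod p)) : ℂ) - 1‖ := by
  have hp0 : (0 : ℝ) < p := by exact_mod_cast hp.out.pos
  have h1 : (stdAddChar (-(k : ZMod p)) : ℂ) =
      Complex.exp (Complex.I * ((-(2 * Real.pi * k / p) : ℝ) : ℂ)) := by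
    have h2 := ZMod.stdAddChar_coe (N := p) (-(k : ℤ))
    push_cast at h2
    rw [h2]
    congr 1
    push_cast
    ring
  rw [h1, Complex.norm_exp_I_mul_ofReal_sub_one]
  have h3 : -(2 * Real.pi * k / p) / 2 = -(Real.pi * k / p) := by ring
  rw [h3, Real.sin_neg, mul_neg, norm_neg, norm_mul, Real.norm_ofNat, Real.norm_eq_abs]
  have h4 : 2 * ((min k (p - k) : ℕ) : ℝ) / p ≤ Real.sin (Real.pi * k / p) := by
    rcases le_total k (p - k) with h | h
    · rw [min_eq_left h]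
      have h5 : Real.pi * k / p ≤ Real.pi / 2 := by
        rw [div_le_div_iff₀ hp0 (by norm_num)]
        have : (k : ℝ) * 2 ≤ p := by
          have : k * 2 ≤ p := by omega
          exact_mod_cast this
        nlinarith [Real.pi_pos]
      have h6 := Real.mul_le_sin (x := Real.pi * k / p) (by positivity) h5
      calc 2 * (k : ℝ) / p = 2 / Real.pi * (Real.pi * k / p) := by
            field_simp
        _ ≤ _ := h6
    · rw [min_eq_right h, ← Real.sin_pi_sub]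
      have hkp' : k ≤ p := hkp.le
      have h5 : Real.pi - Real.pi * k / p = Real.pi * ((p - k : ℕ) : ℝ) / p := by
        rw [Nat.cast_sub hkp']
        field_simp
      rw [h5]
      have h6 : Real.pi * ((p - k : ℕ) : ℝ) / p ≤ Real.pi / 2 := by
        rw [div_le_div_iff₀ hp0 (by norm_num)]
        have : ((p - k : ℕ) : ℝ) * 2 ≤ p := by
          have : (p - k) * 2 ≤ p := by omega
          exact_mod_cast this
        nlinarith [Real.pi_pos]
      have h7 := Real.mul_le_sin (x := Real.pi * ((p - k : ℕ) : ℝ) / p) (by positivity) h6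
      calc 2 * ((p - k : ℕ) : ℝ) / p = 2 / Real.pi * (Real.pi * ((p - k : ℕ) : ℝ) / p) := by
            field_simp
        _ ≤ _ := h7
  have h8 := le_abs_self (Real.sin (Real.pi * k / p))
  calc 4 * ((min k (p - k) : ℕ) : ℝ) / p = 2 * (2 * ((min k (p - k) : ℕ) : ℝ) / p) := by ring
    _ ≤ 2 * |Real.sin (Real.pi * k / p)| := by linarith

theorem norm_F_le {a b : ℕ} (hab : a ≤ b) {k : ℕ} (hk0 : 0 < k) (hkp : k < p) :
    ‖F a b (k : ZMod p)‖ ≤ (p : ℝ) / 2 * (1 / (k : ℝ) + 1 / ((p - k : ℕ) : ℝ)) := by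
  have hp0 : (0 : ℝ) < p := by exact_mod_cast hp.out.pos
  have hge := norm_sub_one_ge hk0 hkp
  set z : ℂ := (stdAddChar (-(k : ZMod p)) : ℂ) with hz
  have hmin : 0 < min k (p - k) := by
    rw [lt_min_iff]; omega
  have hmin' : (0 : ℝ) < ((min k (p - k) : ℕ) : ℝ) := by exact_mod_cast hmin
  have hpos : 0 < ‖z - 1‖ := lt_of_lt_of_le (by positivity) hge
  have hne : z ≠ 1 := fun h => by simp [h] at hpos
  have hzn : ‖z‖ = 1 := norm_char _
  have h1 : F a b (k : ZMod p) * (z - 1) = z ^ (b + 1) - z ^ (a + 1) := by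
    unfold F
    simp_rw [char_pow]
    rw [← hz]
    have : Ioc a b = Ico (a + 1) (b + 1) := by ext t; simp only [Finset.mem_Ioc, Finset.mem_Ico]; omega
    rw [this]
    exact geom_sum_Ico_mul z (by omega)
  have h2 : ‖F a b (k : ZMod p)‖ * ‖z - 1‖ ≤ 2 := by
    rw [← norm_mul, h1]
    calc _ ≤ ‖z ^ (b + 1)‖ + ‖z ^ (a + 1)‖ := norm_sub_le _ _
      _ = 2 := by rw [norm_pow, norm_pow, hzn]; norm_num
  have h3 : ‖F a b (k : ZMod p)‖ ≤ (p : ℝ) / (2 * ((min k (p - k) : ℕ) : ℝ)) := by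
    have h4 : ‖F a b (k : ZMod p)‖ * (4 * ((min k (p - k) : ℕ) : ℝ) / p) ≤ 2 :=
      (mul_le_mul_of_nonneg_left hge (norm_nonneg _)).trans h2
    rw [le_div_iff₀ (by positivity)]
    have h5 : ‖F a b (k : ZMod p)‖ * (4 * ((min k (p - k) : ℕ) : ℝ) / p) =
      ‖F a b (k : ZMod p)‖ * (2 * ((min k (p - k) : ℕ) : ℝ)) * 2 / p := by ring
    rw [h5, div_le_iff₀ hp0] at h4
    linarith
  refine h3.trans ?_
  have h6 : (p : ℝ) / (2 * ((min k (p - k) : ℕ) : ℝ)) = (p : ℝ) / 2 * (1 / ((min k (p - k) : ℕ) : ℝ)) := by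
    field_simp
  rw [h6]
  refine mul_le_mul_of_nonneg_left ?_ (by positivity)
  rcases le_total k (p - k) with h | h
  · rw [min_eq_left h]
    have : (0 : ℝ) ≤ 1 / ((p - k : ℕ) : ℝ) := by positivity
    linarith
  · rw [min_eq_right h]
    have : (0 : ℝ) ≤ 1 / (k : ℝ) := by positivity
    linarith

theorem sum_zmod {M : Type*} [AddCommMonoid M] (f : ZMod p → M) :
    ∑ h : ZMod p, f h = ∑ k ∈ range p, f (k : ZMod p) := by
  refine Finset.sum_bij' (fun h _ => h.val) (fun k _ => (k : ZMod p)) ?_ ?_ ?_ ?_ ?_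
  · intro h _; simpa using ZMod.val_lt h
  · intro k _; simp
  · intro h _; simp
  · intro k hk; exact ZMod.val_cast_of_lt (by simpa using hk)
  · intro h _; simp

theorem sum_norm_F_le {a b : ℕ} (hab : a ≤ b) (hbp : b < p) :
    ∑ h : ZMod p, ‖F a b h‖ ≤ 2 * (p : ℝ) * (1 + Real.log p) := by
  have hp1 : 1 ≤ p := hp.out.one_lt.le
  have hp0 : (0 : ℝ) < p := by exact_mod_cast hp.out.pos
  rw [sum_zmod]
  obtain ⟨q, hq⟩ : ∃ q, p = q + 1 := ⟨p - 1, by omega⟩
  have h1 : ∑ k ∈ range p, ‖F (p := p) a b (k : ZMod p)‖ =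
      ‖F (p := p) a b ((0 : ℕ) : ZMod p)‖ + ∑ k ∈ range q, ‖F (p := p) a b ((k + 1 : ℕ) : ZMod p)‖ := by
    conv_lhs => rw [show range p = range (q + 1) by rw [hq]]
    rw [Finset.sum_range_succ' _ q, add_comm]
  rw [h1]
  have h2 : ‖F (p := p) a b ((0 : ℕ) : ZMod p)‖ ≤ p := by
    rw [Nat.cast_zero, F_zero]
    rw [Complex.norm_natCast]
    exact_mod_cast (by omega : b - a ≤ p)
  have h3 : ∑ k ∈ range q, ‖F (p := p) a b ((k + 1 : ℕ) : ZMod p)‖ ≤
      ∑ k ∈ range q, (p : ℝ) / 2 * (1 / ((k + 1 : ℕ) : ℝ) + 1 / ((p - (k + 1) : ℕ) : ℝ)) := by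
    refine Finset.sum_le_sum fun k hk => norm_F_le hab (by omega) ?_
    have := Finset.mem_range.1 hk
    omega
  have h4 : ∑ k ∈ range q, (1 : ℝ) / ((p - (k + 1) : ℕ) : ℝ) =
      ∑ k ∈ range q, (1 : ℝ) / ((k + 1 : ℕ) : ℝ) := by
    rw [← Finset.sum_range_reflect (fun k => (1 : ℝ) / ((k + 1 : ℕ) : ℝ))]
    refine Finset.sum_congr rfl fun k hk => ?_
    have := Finset.mem_range.1 hk
    congr 2
    omega
  have h5 : ∑ k ∈ range q, (1 : ℝ) / ((k + 1 : ℕ) : ℝ) ≤ 1 + Real.log p := by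
    have h6 := harmonic_le_one_add_log q
    have h7 : ((harmonic q : ℚ) : ℝ) = ∑ k ∈ range q, (1 : ℝ) / ((k + 1 : ℕ) : ℝ) := by
      unfold harmonic
      push_cast
      simp
    rw [← h7]
    refine h6.trans ?_
    rcases Nat.eq_zero_or_pos q with hq0 | hq0
    · subst hq0; simp [Real.log_nonneg (show (1 : ℝ) ≤ p by exact_mod_cast hp1)]
    · have : Real.log q ≤ Real.log p :=
        Real.log_le_log (by exact_mod_cast hq0) (by exact_mod_cast (by omega : q ≤ p))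
      linarith
  have h6 : ∑ k ∈ range q, (p : ℝ) / 2 * (1 / ((k + 1 : ℕ) : ℝ) + 1 / ((p - (k + 1) : ℕ) : ℝ)) =
      (p : ℝ) * ∑ k ∈ range q, (1 : ℝ) / ((k + 1 : ℕ) : ℝ) := by
    rw [← Finset.mul_sum, Finset.sum_add_distrib, h4]
    ring
  rw [h6] at h3
  have h7 : (p : ℝ) * ∑ k ∈ range q, (1 : ℝ) / ((k + 1 : ℕ) : ℝ) ≤ (p : ℝ) * (1 + Real.log p) :=
    mul_le_mul_of_nonneg_left h5 hp0.le
  have h8 : 0 ≤ (p : ℝ) * Real.log p :=
    mul_nonneg hp0.le (Real.log_nonneg (by exact_mod_cast hp1))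
  nlinarith

end Pool.Agent.Helper94.Box
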