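import Mathlib

/-!
# An elementary bound for Kloosterman sums (exponent 3/4)
-/

set_option autoImplicit false

namespace Pool.Agent.Helper94.Box

open Finset ZMod

variable {p : ℕ} [hp : Fact p.Prime]

theorem sum_char (b : ZMod p) :
    ∑ a : ZMod p, (stdAddChar (a * b) : ℂ) = if b = 0 then (p : ℂ) else 0 := by
  have h := AddChar.sum_mulShift b (ZMod.isPrimitive_stdAddChar p)
  simpa [ZMod.card] using h

theorem char_mul (a b : ZMod p) :
    (stdAddChar (a + b) : ℂ) = stdAddChar a * stdAddChar b := by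
  exact AddChar.map_add_eq_mul _ _ _

theorem norm_char (a : ZMod p) : ‖(stdAddChar a : ℂ)‖ = 1 := by
  rw [stdAddChar_apply]
  simp

theorem conj_char (a : ZMod p) :
    (starRingEnd ℂ) (stdAddChar a : ℂ) = stdAddChar (-a) := by
  exact (AddChar.map_neg_eq_conj _ _).symm

/-- Parseval. -/
theorem parseval {ι : Type*} (S : Finset ι) (u v : ι → ZMod p) [DecidableEq ι] :
    ∑ a : ZMod p, ∑ b : ZMod p, ‖∑ i ∈ S, (stdAddChar (a * u i + b * v i) : ℂ)‖ ^ 2 =
      (p : ℝ) ^ 2 * (((S ×ˢ S).filter (fun t => u t.1 = u t.2 ∧ v t.1 = v t.2)).card : ℝ) := by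
  have key : ((∑ a : ZMod p, ∑ b : ZMod p,
      ‖∑ i ∈ S, (stdAddChar (a * u i + b * v i) : ℂ)‖ ^ 2 : ℝ) : ℂ) =
      (p : ℂ) ^ 2 * (((S ×ˢ S).filter (fun t => u t.1 = u t.2 ∧ v t.1 = v t.2)).card : ℂ) := by
    push_cast
    have h1 : ∀ a b : ZMod p,
        ((‖∑ i ∈ S, (stdAddChar (a * u i + b * v i) : ℂ)‖ : ℂ)) ^ 2 =
        ∑ t ∈ S ×ˢ S, (stdAddChar (a * (u t.1 - u t.2)) : ℂ) *
          (stdAddChar (b * (v t.1 - v t.2)) : ℂ) := by
      intro a b
      rw [← Complex.mul_conj', map_sum, Finset.sum_mul_sum, Finset.sum_product]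
      refine Finset.sum_congr rfl fun i _ => Finset.sum_congr rfl fun j _ => ?_
      rw [conj_char, ← char_mul, ← char_mul]
      congr 1
      ring
    simp_rw [h1]
    rw [show (∑ a : ZMod p, ∑ b : ZMod p, ∑ t ∈ S ×ˢ S,
        (stdAddChar (a * (u t.1 - u t.2)) : ℂ) * (stdAddChar (b * (v t.1 - v t.2)) : ℂ)) =
        ∑ t ∈ S ×ˢ S, (∑ a : ZMod p, (stdAddChar (a * (u t.1 - u t.2)) : ℂ)) *
          (∑ b : ZMod p, (stdAddChar (b * (v t.1 - v t.2)) : ℂ)) from ?_]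
    · simp_rw [sum_char, sub_eq_zero]
      rw [Finset.card_filter]
      push_cast
      rw [Finset.mul_sum]
      refine Finset.sum_congr rfl fun t _ => ?_
      by_cases h1 : u t.1 = u t.2 <;> by_cases h2 : v t.1 = v t.2 <;> simp [h1, h2, sq]
    · simp_rw [Finset.sum_mul_sum]
      rw [Finset.sum_comm (s := S ×ˢ S)]
      refine Finset.sum_congr rfl fun a _ => ?_
      rw [Finset.sum_comm]
  exact_mod_cast key

/-- Kloosterman sum. -/
noncomputable def K (a b : ZMod p) : ℂ :=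
  ∑ x : (ZMod p)ˣ, (stdAddChar (a * (x : ZMod p) + b * ((x⁻¹ : (ZMod p)ˣ) : ZMod p)) : ℂ)

theorem K_sq (a b : ZMod p) :
    K a b ^ 2 = ∑ i ∈ (univ : Finset ((ZMod p)ˣ × (ZMod p)ˣ)),
      (stdAddChar (a * ((i.1 : ZMod p) + (i.2 : ZMod p)) +
        b * (((i.1⁻¹ : (ZMod p)ˣ) : ZMod p) + ((i.2⁻¹ : (ZMod p)ˣ) : ZMod p))) : ℂ) := by
  rw [K, sq, Finset.sum_mul_sum, ← Finset.univ_product_univ, Finset.sum_product]
  refine Finset.sum_congr rfl fun i _ => Finset.sum_congr rfl fun j _ => ?_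
  rw [← char_mul]
  congr 1
  ring

/-- Twisting. -/
theorem K_twist (a b : ZMod p) (c : (ZMod p)ˣ) :
    K (a * (c : ZMod p)) (b * ((c⁻¹ : (ZMod p)ˣ) : ZMod p)) = K a b := by
  unfold K
  refine Fintype.sum_equiv (Equiv.mulLeft c) _ _ fun x => ?_
  congr 1
  simp only [Equiv.coe_mulLeft, mul_inv, Units.val_mul]
  ring

theorem count_le :
    (((univ : Finset ((ZMod p)ˣ × (ZMod p)ˣ)) ×ˢ (univ : Finset ((ZMod p)ˣ × (ZMod p)ˣ))).filter
      (fun t => ((t.1.1 : ZMod p) + (t.1.2 : ZMod p) = (t.2.1 : ZMod p) + (t.2.2 : ZMod p)) ∧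
        (((t.1.1⁻¹ : (ZMod p)ˣ) : ZMod p) + ((t.1.2⁻¹ : (ZMod p)ˣ) : ZMod p) =
        ((t.2.1⁻¹ : (ZMod p)ˣ) : ZMod p) + ((t.2.2⁻¹ : (ZMod p)ˣ) : ZMod p)))).card
      ≤ 3 * (p - 1) ^ 2 := by
  classical
  set U : Finset ((ZMod p)ˣ × (ZMod p)ˣ) := univ with hU
  have hcardU : Fintype.card (ZMod p)ˣ = p - 1 := ZMod.card_units p
  -- three injective families
  have hsub : ((U ×ˢ U).filter
      (fun t => ((t.1.1 : ZMod p) + (t.1.2 : ZMod p) = (t.2.1 : ZMod p) + (t.2.2 : ZMod p)) ∧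
        (((t.1.1⁻¹ : (ZMod p)ˣ) : ZMod p) + ((t.1.2⁻¹ : (ZMod p)ˣ) : ZMod p) =
        ((t.2.1⁻¹ : (ZMod p)ˣ) : ZMod p) + ((t.2.2⁻¹ : (ZMod p)ˣ) : ZMod p)))) ⊆
      ((U.image (fun t => ((t.1, t.2), (t.1, t.2)))) ∪
       (U.image (fun t => ((t.1, t.2), (t.2, t.1))))) ∪
       (U.image (fun t => ((t.1, -t.1), (t.2, -t.2)))) := by
    intro t ht
    simp only [Finset.mem_filter] at ht
    obtain ⟨-, h1, h2⟩ := ht
    obtain ⟨⟨x, y⟩, ⟨z, w⟩⟩ := t
    simp only at h1 h2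
    simp only [Finset.mem_union, Finset.mem_image]
    have hx : (x : ZMod p) ≠ 0 := x.ne_zero
    have hy : (y : ZMod p) ≠ 0 := y.ne_zero
    have hz : (z : ZMod p) ≠ 0 := z.ne_zero
    have hw : (w : ZMod p) ≠ 0 := w.ne_zero
    simp only [Units.val_inv_eq_inv_val] at h2
    by_cases hs : (x : ZMod p) + y = 0
    · right
      refine ⟨(x, z), by simp [hU], ?_⟩
      have h3 : (z : ZMod p) + w = 0 := by rw [← h1, hs]
      have h4 : (y : ZMod p) = -x := by linear_combination hs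
      have h5 : (w : ZMod p) = -z := by linear_combination h3
      have h4' : y = -x := Units.ext (by simpa using h4)
      have h5' : w = -z := Units.ext (by simpa using h5)
      simp [h4', h5']
    · left
      have h3 : ((x : ZMod p) + y) * (z * w) = ((z : ZMod p) + w) * (x * y) := by
        field_simp at h2
        linear_combination h2
      rw [← h1] at h3
      have h4 : (z : ZMod p) * w = x * y := mul_left_cancel₀ hs h3
      have h5 : ((x : ZMod p) - z) * (x - w) = 0 := by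
        linear_combination (x : ZMod p) * h1 + h4
      rcases mul_eq_zero.1 h5 with h | h
      · left
        refine ⟨(x, y), by simp [hU], ?_⟩
        have h6 : (z : ZMod p) = x := by linear_combination -h
        have h7 : (w : ZMod p) = y := by linear_combination -h1 + h
        have h6' : z = x := Units.ext h6
        have h7' : w = y := Units.ext h7
        simp [h6', h7']
      · right
        refine ⟨(x, y), by simp [hU], ?_⟩
        have h6 : (w : ZMod p) = x := by linear_combination -h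
        have h7 : (z : ZMod p) = y := by linear_combination -h1 + h
        have h6' : w = x := Units.ext h6
        have h7' : z = y := Units.ext h7
        simp [h6', h7']
  have hUc : U.card = (p - 1) ^ 2 := by
    rw [hU, Finset.card_univ, Fintype.card_prod, hcardU, sq]
  calc _ ≤ _ := Finset.card_le_card hsub
    _ ≤ (U.card + U.card) + U.card := by
        refine (Finset.card_union_le _ _).trans (Nat.add_le_add ((Finset.card_union_le _ _).trans
          (Nat.add_le_add Finset.card_image_le Finset.card_image_le)) Finset.card_image_le)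
    _ = 3 * (p - 1) ^ 2 := by rw [hUc]; ring

theorem fourth_moment :
    ∑ a : ZMod p, ∑ b : ZMod p, ‖K a b‖ ^ 4 ≤ 3 * (p : ℝ) ^ 2 * ((p : ℝ) - 1) ^ 2 := by
  classical
  have h1 : ∀ a b : ZMod p, ‖K a b‖ ^ 4 = ‖K a b ^ 2‖ ^ 2 := by
    intro a b
    rw [norm_pow]; ring
  simp_rw [h1, K_sq]
  rw [parseval (univ : Finset ((ZMod p)ˣ × (ZMod p)ˣ)) (fun i => (i.1 : ZMod p) + (i.2 : ZMod p))
    (fun i => ((i.1⁻¹ : (ZMod p)ˣ) : ZMod p) + ((i.2⁻¹ : (ZMod p)ˣ) : ZMod p))]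
  have h2 := count_le (p := p)
  have hp1 : 1 ≤ p := hp.out.one_lt.le
  have h3 : ((((univ : Finset ((ZMod p)ˣ × (ZMod p)ˣ)) ×ˢ
      (univ : Finset ((ZMod p)ˣ × (ZMod p)ˣ))).filter
      (fun t => ((t.1.1 : ZMod p) + (t.1.2 : ZMod p) = (t.2.1 : ZMod p) + (t.2.2 : ZMod p)) ∧
        (((t.1.1⁻¹ : (ZMod p)ˣ) : ZMod p) + ((t.1.2⁻¹ : (ZMod p)ˣ) : ZMod p) =
        ((t.2.1⁻¹ : (ZMod p)ˣ) : ZMod p) + ((t.2.2⁻¹ : (ZMod p)ˣ) : ZMod p)))).card : ℝ)
      ≤ 3 * ((p : ℝ) - 1) ^ 2 := by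
    calc _ ≤ ((3 * (p - 1) ^ 2 : ℕ) : ℝ) := by exact_mod_cast h2
      _ = _ := by push_cast [Nat.cast_sub hp1]; ring
  have h4 : (0 : ℝ) ≤ (p : ℝ) ^ 2 := by positivity
  calc _ ≤ (p : ℝ) ^ 2 * (3 * ((p : ℝ) - 1) ^ 2) := by
        refine mul_le_mul_of_nonneg_left ?_ h4
        convert h3 using 3
    _ = _ := by ring

/-- The elementary bound with both entries nonzero. -/
theorem K_pow_four_le {a b : ZMod p} (ha : a ≠ 0) (hb : b ≠ 0) :
    ‖K a b‖ ^ 4 ≤ 3 * (p : ℝ) ^ 3 := by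
  classical
  have hp1 : (1 : ℝ) < p := by exact_mod_cast hp.out.one_lt
  have hcardU : Fintype.card (ZMod p)ˣ = p - 1 := ZMod.card_units p
  have h1 : ((p : ℝ) - 1) * ‖K a b‖ ^ 4 ≤ ∑ a : ZMod p, ∑ b : ZMod p, ‖K a b‖ ^ 4 := by
    have h2 : ((p : ℝ) - 1) * ‖K a b‖ ^ 4 = ∑ c : (ZMod p)ˣ,
        ‖K (a * (c : ZMod p)) (b * ((c⁻¹ : (ZMod p)ˣ) : ZMod p))‖ ^ 4 := by
      simp_rw [K_twist]
      rw [Finset.sum_const, Finset.card_univ, hcardU, nsmul_eq_mul,
        Nat.cast_sub hp.out.one_lt.le]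
      simp
    rw [h2, ← Finset.sum_product']
    rw [← Finset.sum_image (s := (univ : Finset (ZMod p)ˣ))
      (g := fun c : (ZMod p)ˣ => (a * (c : ZMod p), b * ((c⁻¹ : (ZMod p)ˣ) : ZMod p)))
      (f := fun t : ZMod p × ZMod p => ‖K t.1 t.2‖ ^ 4)]
    · refine Finset.sum_le_sum_of_subset_of_nonneg (fun t _ => by simp) fun t _ _ => by positivity
    · intro c _ d _ hcd
      simp only [Prod.mk.injEq] at hcd
      exact Units.ext (mul_left_cancel₀ ha hcd.1)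
  have h3 := h1.trans (fourth_moment (p := p))
  have h4 : ((p : ℝ) - 1) * ‖K a b‖ ^ 4 ≤ ((p : ℝ) - 1) * (3 * (p : ℝ) ^ 2 * ((p : ℝ) - 1)) := by
    calc _ ≤ _ := h3
      _ = _ := by ring
  have h5 := le_of_mul_le_mul_left h4 (by linarith)
  have h6 : 3 * (p : ℝ) ^ 2 * ((p : ℝ) - 1) ≤ 3 * (p : ℝ) ^ 3 := by nlinarith [sq_nonneg (p : ℝ)]
  linarith

theorem K_zero_right {a : ZMod p} (ha : a ≠ 0) : K a 0 = -1 := by
  classical
  have h1 := sum_char a
  rw [if_neg ha] at h1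
  unfold K
  simp only [zero_mul, add_zero]
  have h2 : ∑ x : ZMod p, (stdAddChar (x * a) : ℂ) =
      (stdAddChar ((0 : ZMod p) * a) : ℂ) + ∑ x : (ZMod p)ˣ, (stdAddChar ((x : ZMod p) * a) : ℂ) := by
    rw [← Finset.add_sum_erase _ _ (Finset.mem_univ (0 : ZMod p))]
    congr 1
    symm
    refine Finset.sum_bij (fun x _ => (x : ZMod p)) (fun x _ => by simp) (fun x _ y _ h => Units.ext h)
      (fun y hy => ⟨Units.mk0 y (by simpa using hy), by simp, by simp⟩) (fun x _ => rfl)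
  rw [h2] at h1
  simp only [zero_mul, AddChar.map_zero_eq_one] at h1
  have h3 : ∀ x : (ZMod p)ˣ, (stdAddChar (a * (x : ZMod p)) : ℂ) =
      (stdAddChar ((x : ZMod p) * a) : ℂ) := fun x => by rw [mul_comm]
  simp_rw [h3]
  linear_combination h1

theorem K_swap (a b : ZMod p) : K a b = K b a := by
  unfold K
  refine Fintype.sum_equiv (Equiv.inv _) _ _ fun x => ?_
  congr 1
  simp only [Equiv.inv_apply, inv_inv]
  ring

/-- The bound for every nonzero frequency. -/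
theorem norm_K_le {a b : ZMod p} (h : ¬ (a = 0 ∧ b = 0)) :
    ‖K a b‖ ≤ 2 * (p : ℝ) ^ (3 / 4 : ℝ) := by
  have hp1 : (1 : ℝ) < p := by exact_mod_cast hp.out.one_lt
  have hp0 : (0 : ℝ) ≤ p := by linarith
  have h1p : (1 : ℝ) ≤ (p : ℝ) ^ (3 / 4 : ℝ) := Real.one_le_rpow hp1.le (by norm_num)
  by_cases ha : a = 0
  · have hb : b ≠ 0 := fun hb => h ⟨ha, hb⟩
    rw [ha, K_swap, K_zero_right hb, norm_neg, norm_one]
    linarith
  by_cases hb : b = 0
  · rw [hb, K_zero_right ha, norm_neg, norm_one]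
    linarith
  have h4 := K_pow_four_le ha hb
  have h5 : ((p : ℝ) ^ (3 / 4 : ℝ)) ^ 4 = (p : ℝ) ^ 3 := by
    rw [← Real.rpow_natCast ((p : ℝ) ^ (3 / 4 : ℝ)) 4, ← Real.rpow_mul hp0]
    norm_num
  refine le_of_pow_le_pow_left₀ (n := 4) (by norm_num) (by positivity) ?_
  rw [mul_pow, h5]
  have : (0 : ℝ) ≤ (p : ℝ) ^ 3 := by positivity
  linarith

end Pool.Agent.Helper94.Box
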